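import Pool.Agent.H61.KV.TF

/-!
# Kuiper board KV, module CST

The second differences of `g` are constant.
-/

open Set
open Pool.Agent.H61.KV

namespace Pool.Agent.H60.KV.CST

/-- `ζ ∘ g` is convex when `ζ` is nonnegative on `T`. -/
theorem conv {T : Set F4} {g : F4 → F4} (hP : Pln T g) (ζ : F4 →ₗ[ℝ] ℝ)
    (hζ : ∀ s ∈ T, 0 ≤ ζ s) : ConvexOn ℝ univ (fun u => ζ (g u)) := by
  refine ⟨convex_univ, ?_⟩
  intro x _ y _ a b ha hb hab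
  have hb' : b = 1 - a := by linarith
  subst hb'
  have h := hζ _ (hP.cvx x y a ha (by linarith))
  simp only [map_add, map_sub, map_smul, smul_eq_mul] at h ⊢
  linarith

/-- `ζ` of a second difference. -/
theorem zdl (g : F4 → F4) (ζ : F4 →ₗ[ℝ] ℝ) (u w : F4) :
    ζ (Dl g u w) = ζ (g (u + w)) + ζ (g (u - w)) - 2 * ζ (g u) := by
  simp only [Dl, map_add, map_sub, map_smul, smul_eq_mul]

/-- (a): along the directions of `D_t(u₀)` the function `ζ ∘ g` is affine. -/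
theorem aff (h2 : T_LIN) {T : Set F4} {g : F4 → F4} (hP : Pln T g) {t : F4} (ht : Bo T t)
    (ζ : F4 →ₗ[ℝ] ℝ) (hζ : ∀ s ∈ T, 0 ≤ ζ s) (hζt : ζ t = 0) (u₀ a : F4)
    (ha : ∃ c : ℝ, Dl g u₀ a = c • t) :
    ∃ c : ℝ, ∀ (u' : F4) (s : ℝ), ζ (g (u' + s • a)) = ζ (g u') + s * c := by
  obtain ⟨D, -, hD⟩ := hP.pln t ht u₀
  have haD : a ∈ D := (hD a).2 ha
  refine h2 (fun u => ζ (g u)) u₀ a (conv hP ζ hζ) ?_
  intro s
  obtain ⟨c, hc⟩ := (hD (s • a)).1 (D.smul_mem s haD)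
  have h := zdl g ζ u₀ (s • a)
  rw [hc, map_smul, hζt, smul_zero] at h
  linarith

theorem pf_CST (h1 : T_SCF) (h2 : T_LIN) : T_CST := by
  intro T g hP w u u'
  by_cases hw : w = 0
  · subst hw
    simp only [Dl, add_zero, sub_zero]
    rw [two_smul, two_smul, sub_self, sub_self]
  obtain ⟨hS1, hS2⟩ := h1 T hP.sc
  set t : F4 := Dl g u w with htdef
  have ht : Bo T t := hP.bdy u w hw
  obtain ⟨ζ, hζ, hζt, hζu⟩ := hS1 t ht
  -- (b)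
  have hb : ∀ v : F4, ∃ c : ℝ, Dl g v w = c • t := by
    intro v
    obtain ⟨c, hc⟩ := aff h2 hP ht ζ hζ hζt u w ⟨1, by rw [one_smul]⟩
    have e1 := hc v 1
    have e2 := hc v (-1)
    rw [one_smul] at e1
    rw [neg_one_smul, ← sub_eq_add_neg] at e2
    have h0 : ζ (Dl g v w) = 0 := by
      rw [zdl, e1, e2]; ring
    obtain ⟨c', _, hc'⟩ := hζu _ (hP.bdy v w hw).1 h0
    exact ⟨c', hc'⟩
  -- (c)
  have hc : ∀ t₁ : F4, Bo T t₁ → t₁ ∉ Submodule.span ℝ {t} → ∀ a : F4,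
      (∃ c : ℝ, Dl g 0 a = c • t₁) → ∀ v : F4, Dl g (v + a) w = Dl g v w := by
    intro t₁ ht₁ hn a ha v
    obtain ⟨ζ₁, hζ₁, hζt₁, hζu₁⟩ := hS1 t₁ ht₁
    obtain ⟨c, hc⟩ := aff h2 hP ht₁ ζ₁ hζ₁ hζt₁ 0 a ha
    have e : ζ₁ (Dl g (v + a) w) = ζ₁ (Dl g v w) := by
      have e1 := hc (v + w) 1
      have e2 := hc (v - w) 1
      have e3 := hc v 1
      rw [one_smul] at e1 e2 e3
      rw [zdl, zdl, show v + a + w = v + w + a by abel, show v + a - w = v - w + a by abel, e1, e2,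
        e3]
      ring
    obtain ⟨c₁, hc₁⟩ := hb (v + a)
    obtain ⟨c₂, hc₂⟩ := hb v
    have hne : ζ₁ t ≠ 0 := by
      intro h0
      obtain ⟨c', _, hc'⟩ := hζu₁ t ht.1 h0
      have hc0 : c' ≠ 0 := by
        rintro rfl
        exact ht.2.1 (by rw [hc', zero_smul])
      exact hn (Submodule.mem_span_singleton.2 ⟨c'⁻¹, by
        rw [hc', smul_smul, inv_mul_cancel₀ hc0, one_smul]⟩)
    rw [hc₁, hc₂, map_smul, map_smul, smul_eq_mul, smul_eq_mul] at e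
    have : c₁ = c₂ := mul_right_cancel₀ hne e
    rw [hc₁, hc₂, this]
  -- (d)
  obtain ⟨t₁, ht₁, hn₁, -⟩ := hS2 t t
  obtain ⟨t₂, ht₂, hn₂, hn₃⟩ := hS2 t t₁
  obtain ⟨D₁, hr₁, hD₁⟩ := hP.pln t₁ ht₁ 0
  obtain ⟨D₂, hr₂, hD₂⟩ := hP.pln t₂ ht₂ 0
  have hdis : D₁ ⊓ D₂ = ⊥ := by
    rw [Submodule.eq_bot_iff]
    intro a ha
    by_contra hne
    obtain ⟨c₁, hc₁⟩ := (hD₁ a).1 ha.1
    obtain ⟨c₂, hc₂⟩ := (hD₂ a).1 ha.2
    have hnz : Dl g 0 a ≠ 0 := (hP.bdy 0 a hne).2.1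
    have hc0 : c₂ ≠ 0 := by
      rintro rfl
      exact hnz (by rw [hc₂, zero_smul])
    refine hn₃ (Submodule.mem_span_singleton.2 ⟨c₂⁻¹ * c₁, ?_⟩)
    rw [mul_smul, ← hc₁, hc₂, smul_smul, inv_mul_cancel₀ hc0, one_smul]
  have htop : D₁ ⊔ D₂ = ⊤ := by
    apply Submodule.eq_top_of_finrank_eq
    have h := Submodule.finrank_sup_add_finrank_inf_eq D₁ D₂
    rw [hdis, finrank_bot, hr₁, hr₂] at h
    rw [finrank_euclideanSpace, Fintype.card_fin]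
    omega
  have hall : ∀ a v : F4, Dl g (v + a) w = Dl g v w := by
    intro a v
    have ha : a ∈ D₁ ⊔ D₂ := by rw [htop]; trivial
    obtain ⟨a₁, h₁, a₂, h₂, rfl⟩ := Submodule.mem_sup.1 ha
    rw [← add_assoc, hc t₂ ht₂ hn₂ a₂ ((hD₂ a₂).1 h₂) (v + a₁),
      hc t₁ ht₁ hn₁ a₁ ((hD₁ a₁).1 h₁) v]
  have h := hall (u' - u) u
  rw [add_sub_cancel] at h
  rw [htdef, h]

end Pool.Agent.H60.KV.CST
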