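import Pool.Agent.H61.KV.TE

/-!
# Kuiper board KV, module SMO

Smooth boundary points of the face of `p`.
-/

open Set Metric
open Pool.Agent.H61.KV

namespace Pool.Agent.H60.KV.SMO

/-- An interior point with positive weight plus a point of the cone is an interior point. -/
theorem int_add {E : Type} [NormedAddCommGroup E] [NormedSpace ℝ E] {K : Set E}
    (hadd : ∀ x ∈ K, ∀ y ∈ K, x + y ∈ K) (hsm : ∀ c : ℝ, 0 ≤ c → ∀ x ∈ K, c • x ∈ K)
    {x k : E} {a : ℝ} (hx : x ∈ interior K) (hk : k ∈ K) (ha : 0 < a) :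
    a • x + k ∈ interior K := by
  rw [mem_interior]
  refine ⟨(fun z => a⁻¹ • (z - k)) ⁻¹' interior K, ?_, ?_, ?_⟩
  · intro z hz
    have h1 : a⁻¹ • (z - k) ∈ K := interior_subset hz
    have h2 := hadd _ (hsm a ha.le _ h1) _ hk
    rwa [smul_inv_smul₀ ha.ne', sub_add_cancel] at h2
  · exact isOpen_interior.preimage (by fun_prop)
  · show a⁻¹ • (a • x + k - k) ∈ interior K
    rwa [add_sub_cancel_right, inv_smul_smul₀ ha.ne']

/-- A vector whose inner products with a ball are nonnegative and which is orthogonal to a point of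
the sphere. -/
theorem normal {E : Type} [NormedAddCommGroup E] [InnerProductSpace ℝ E] {c t ν : E} {R : ℝ}
    (hR : ‖t - c‖ = R) (hR0 : 0 < R) (hν : ∀ x, dist x c ≤ R → 0 ≤ inner ℝ ν x)
    (ht : inner ℝ ν t = 0) : ‖ν‖ • (t - c) = -(R • ν) := by
  by_cases h0 : ν = 0
  · subst h0; simp
  have hn : 0 < ‖ν‖ := norm_pos_iff.2 h0
  have h1 : 0 ≤ inner ℝ ν (c - (R / ‖ν‖) • ν) := by
    apply hν
    rw [dist_eq_norm, sub_sub_cancel_left, norm_neg, norm_smul, Real.norm_of_nonneg (by positivity),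
      div_mul_cancel₀ _ hn.ne']
  rw [inner_sub_right, inner_smul_right, real_inner_self_eq_norm_sq] at h1
  have h2 : R / ‖ν‖ * ‖ν‖ ^ 2 = R * ‖ν‖ := by field_simp
  rw [h2] at h1
  have h3 : inner ℝ ν (t - c) ≤ -(R * ‖ν‖) := by
    rw [inner_sub_right, ht]; linarith
  have h4 : ‖‖ν‖ • (t - c) + R • ν‖ ^ 2 ≤ 0 := by
    rw [@norm_add_sq_real, norm_smul, norm_smul, hR, inner_smul_left, inner_smul_right,
      real_inner_comm, Real.norm_of_nonneg hn.le, Real.norm_of_nonneg hR0.le]
    simp only [conj_trivial]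
    nlinarith [mul_le_mul_of_nonneg_left h3 (mul_pos hn hR0).le]
  have h5 : ‖ν‖ • (t - c) + R • ν = 0 := by
    have : ‖‖ν‖ • (t - c) + R • ν‖ = 0 := by
      have := sq_nonneg ‖‖ν‖ • (t - c) + R • ν‖
      exact pow_eq_zero_iff (two_ne_zero) |>.1 (le_antisymm h4 this)
    exact norm_eq_zero.1 this
  exact eq_neg_of_add_eq_zero_left h5

theorem pf_SMO (h1 : T_FCB) (h2 : T_TWB) : T_SMO := by
  intro V _ _ _ C p y hC hp h3
  obtain ⟨f1, f2, f3, f4, f5, f6, f7⟩ := h1 V C p hC hp
  obtain ⟨s, ⟨hsF, hs0, hsp⟩, hsy⟩ := h2 V C p y hC hp h3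
  set S := Sp C p with hS
  -- coordinates
  let E := EuclideanSpace ℝ (Fin (Module.finrank ℝ S))
  have hfr : Module.finrank ℝ E = Module.finrank ℝ S := by
    rw [finrank_euclideanSpace, Fintype.card_fin]
  let e : E ≃ₗ[ℝ] S := LinearEquiv.ofFinrankEq E S hfr
  let j : E →ₗ[ℝ] V := S.subtype ∘ₗ e.toLinearMap
  have hj : Continuous j := j.continuous_of_finiteDimensional
  have hjS : ∀ x, j x ∈ S := fun x => (e x).2
  have hjsur : ∀ v ∈ S, ∃ x, j x = v := by
    intro v hv
    refine ⟨e.symm ⟨v, hv⟩, ?_⟩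
    simp [j]
  have hjinj : Function.Injective j := by
    intro a b hab
    exact e.injective (Subtype.ext hab)
  set K : Set E := j ⁻¹' C with hK
  have hKF : ∀ x, x ∈ K → j x ∈ Fc C p := fun x hx => f5 _ hx (hjS x)
  have hKadd : ∀ x ∈ K, ∀ z ∈ K, x + z ∈ K := by
    intro x hx z hz
    show j (x + z) ∈ C
    rw [map_add]; exact hC.add _ hx _ hz
  have hKsm : ∀ c : ℝ, 0 ≤ c → ∀ x ∈ K, c • x ∈ K := by
    intro c hc x hx
    show j (c • x) ∈ C
    rw [map_smul]; exact hC.smul c hc _ hx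
  have hK0 : (0 : E) ∈ K := by
    show j 0 ∈ C
    rw [map_zero]; exact hC.zero
  have hKcl : IsClosed K := hC.closed.preimage hj
  have hKcv : Convex ℝ K := by
    intro x hx z hz a b ha hb _
    exact hKadd _ (hKsm a ha x hx) _ (hKsm b hb z hz)
  have hFcS : ∀ v ∈ Fc C p, v ∈ S := fun v hv => Submodule.subset_span hv
  -- the interior is not empty
  have hspan : Submodule.span ℝ K = ⊤ := by
    apply Submodule.map_injective_of_injective hjinj
    rw [Submodule.map_span, Submodule.map_top]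
    apply le_antisymm
    · rw [Submodule.span_le]
      rintro _ ⟨x, -, rfl⟩
      exact ⟨x, rfl⟩
    · rintro _ ⟨x, rfl⟩
      have hx : j x ∈ Submodule.span ℝ (Fc C p) := hjS x
      refine Submodule.span_mono ?_ hx
      intro v hv
      obtain ⟨z, rfl⟩ := hjsur v (hFcS v hv)
      exact ⟨z, hv.1, rfl⟩
  have hne : (interior K).Nonempty := by
    rw [hKcv.interior_nonempty_iff_affineSpan_eq_top]
    have h := affineSpan_insert_zero (k := ℝ) K
    rw [Set.insert_eq_of_mem hK0, hspan] at h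
    apply SetLike.coe_injective
    rw [h]
    rfl
  -- `p'` is an interior point
  obtain ⟨p', hp'⟩ := hjsur p (hFcS p f1)
  obtain ⟨q₀, hq₀⟩ := hne
  have hpint : p' ∈ interior K := by
    obtain ⟨ε, hε, hδ⟩ := f6 (p - j q₀) (S.sub_mem (hFcS p f1) (hjS q₀))
    have h := (hδ ε hε.le le_rfl).1
    have hk : p' + ε • (p' - q₀) ∈ K := by
      show j (p' + ε • (p' - q₀)) ∈ C
      rw [map_add, map_smul, map_sub, hp']
      exact h
    have h4 := int_add hKadd hKsm (a := ε / (1 + ε)) hq₀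
      (hKsm (1 / (1 + ε)) (by positivity) _ hk) (by positivity)
    have h5 : (ε / (1 + ε)) • q₀ + (1 / (1 + ε)) • (p' + ε • (p' - q₀)) = p' := by
      have h6 : (1 + ε) ≠ 0 := by positivity
      have : (ε / (1 + ε)) • q₀ + (1 / (1 + ε)) • (p' + ε • (p' - q₀))
          = ((1 / (1 + ε)) * (1 + ε)) • p' := by module
      rw [this, one_div, inv_mul_cancel₀ h6, one_smul]
    rwa [h5] at h4
  -- `p` is in the face of every interior point
  have hint : ∀ x ∈ interior K, p ∈ Fc C (j x) := by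
    intro x hx
    have hc : Filter.Tendsto (fun d : ℝ => x - d • p') (nhds 0) (nhds x) := by
      have : Continuous (fun d : ℝ => x - d • p') := by fun_prop
      have h := this.tendsto 0
      simpa using h
    have h := hc.eventually (isOpen_interior.mem_nhds hx)
    obtain ⟨δ, hδ, hb⟩ := Metric.eventually_nhds_iff.1 h
    have h4 : x - (δ / 2) • p' ∈ K := by
      apply interior_subset
      apply hb
      rw [Real.dist_eq, sub_zero, abs_of_pos (by positivity)]
      linarith
    refine ⟨hp, (δ / 2)⁻¹, by positivity, ?_⟩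
    have h5 := hC.smul (δ / 2)⁻¹ (by positivity) _ h4
    rw [map_sub, map_smul, smul_sub, inv_smul_smul₀ (by positivity), hp'] at h5
    exact h5
  obtain ⟨s', hs'⟩ := hjsur s (hFcS s hsF)
  have hs'K : s' ∈ K := by
    show j s' ∈ C
    rw [hs']; exact hsF.1
  have hs'int : s' ∉ interior K := by
    intro h
    have := hint s' h
    rw [hs'] at this
    exact hsp this
  -- a small ball
  set N : Set E := j ⁻¹' (Submodule.span ℝ {y} : Submodule ℝ V) with hN
  have hNcl : IsClosed N := (Submodule.closed_of_finiteDimensional _).preimage hj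
  have hs'N : s' ∈ Nᶜ := by
    intro h
    apply hsy
    have : j s' ∈ Submodule.span ℝ {y} := h
    rwa [hs'] at this
  obtain ⟨ρ, hρ, hball⟩ := Metric.isOpen_iff.1 hNcl.isOpen_compl s' hs'N
  have hct : Filter.Tendsto (fun τ : ℝ => s' + τ • (p' - s')) (nhds 0) (nhds s') := by
    have : Continuous (fun τ : ℝ => s' + τ • (p' - s')) := by fun_prop
    have h := this.tendsto 0
    simpa using h
  obtain ⟨δ, hδ, hb⟩ := Metric.eventually_nhds_iff.1
    (hct.eventually (Metric.ball_mem_nhds s' (half_pos hρ)))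
  obtain ⟨τ, hτ0, hτ1, hτδ⟩ : ∃ τ : ℝ, 0 < τ ∧ τ ≤ 1 ∧ τ < δ := by
    refine ⟨min 1 (δ / 2), by positivity, min_le_left _ _, ?_⟩
    exact lt_of_le_of_lt (min_le_right _ _) (by linarith)
  set c' : E := s' + τ • (p' - s') with hc'
  have hcs : dist c' s' < ρ / 2 := by
    have : dist τ 0 < δ := by
      rw [Real.dist_eq, sub_zero, abs_of_pos hτ0]; exact hτδ
    exact hb this
  have hcint : c' ∈ interior K := by
    have h4 := int_add hKadd hKsm hpint (hKsm (1 - τ) (by linarith) _ hs'K) hτ0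
    have h5 : τ • p' + (1 - τ) • s' = c' := by rw [hc']; module
    rwa [h5] at h4
  -- the nearest point
  have hFcl : IsClosed (interior K)ᶜ := isOpen_interior.isClosed_compl
  obtain ⟨t', ht'F, ht'd⟩ := hFcl.exists_infDist_eq_dist ⟨s', hs'int⟩ c'
  set R := ‖t' - c'‖ with hR
  have hRd : dist c' t' = R := by rw [hR, dist_comm, dist_eq_norm]
  have hRlt : R < ρ / 2 := by
    rw [← hRd, ← ht'd]
    exact lt_of_le_of_lt (infDist_le_dist_of_mem hs'int) hcs
  have hR0 : 0 < R := by
    rw [hR, norm_pos_iff, sub_ne_zero]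
    rintro rfl
    exact ht'F hcint
  have hbK : closedBall c' R ⊆ K := by
    rw [← closure_ball c' hR0.ne']
    refine hKcl.closure_subset_iff.2 ?_
    intro x hx
    apply interior_subset
    by_contra hxi
    have h4 : infDist c' (interior K)ᶜ ≤ dist c' x := infDist_le_dist_of_mem hxi
    rw [ht'd, hRd, dist_comm] at h4
    exact absurd (mem_ball.1 hx) (not_lt.2 h4)
  have ht'K : t' ∈ K := by
    apply hbK
    rw [mem_closedBall, dist_comm, hRd]
  have ht'N : t' ∉ N := by
    have : t' ∈ ball s' ρ := by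
      rw [mem_ball]
      have h4 := dist_triangle t' c' s'
      rw [dist_comm t' c', hRd] at h4
      linarith
    exact hball this
  refine ⟨j t', ⟨hKF t' ht'K, ?_, ?_⟩, ht'N, ?_⟩
  · intro h0
    apply ht'N
    show j t' ∈ Submodule.span ℝ {y}
    rw [h0]; exact Submodule.zero_mem _
  · rintro ⟨-, c, hc, hcp⟩
    rcases hc.eq_or_lt with h0 | hpos
    · subst h0
      rw [zero_smul, zero_sub] at hcp
      obtain ⟨ee, hee⟩ := hC.pos
      have hp0 : p = 0 := by
        by_contra hp0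
        have h4 := hee p hp hp0
        have h5 := hee (-p) hcp (neg_ne_zero.2 hp0)
        rw [map_neg] at h5
        linarith
      apply hsp
      rw [hp0]
      exact ⟨hC.zero, 0, le_rfl, by rw [zero_smul, sub_zero]; exact hC.zero⟩
    · have hk : c • t' - p' ∈ K := by
        show j (c • t' - p') ∈ C
        rw [map_sub, map_smul, hp']; exact hcp
      have h4 := int_add hKadd hKsm hpint (hKsm c⁻¹ (by positivity) _ hk) (inv_pos.2 hpos)
      have h5 : c⁻¹ • p' + c⁻¹ • (c • t' - p') = t' := by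
        rw [← smul_add, add_sub_cancel, inv_smul_smul₀ hpos.ne']
      rw [h5] at h4
      exact ht'F h4
  · intro ξ ζ hξ hζ hξt hζt hζp
    have key : ∀ η : V →ₗ[ℝ] ℝ, (∀ r ∈ Fc C p, 0 ≤ η r) → η (j t') = 0 →
        ∃ ν : E, (∀ x, inner ℝ ν x = η (j x)) ∧ ‖ν‖ • (t' - c') = -(R • ν) := by
      intro η hη hηt
      let F : E →L[ℝ] ℝ := LinearMap.toContinuousLinearMap (η ∘ₗ j)
      have hF : ∀ x, inner ℝ ((InnerProductSpace.toDual ℝ E).symm F) x = η (j x) := by
        intro x
        rw [InnerProductSpace.toDual_symm_apply]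
        rfl
      refine ⟨(InnerProductSpace.toDual ℝ E).symm F, hF, ?_⟩
      apply normal rfl hR0
      · intro x hx
        rw [hF]
        exact hη _ (hKF x (hbK (mem_closedBall.2 hx)))
      · rw [hF, hηt]
    obtain ⟨ν, hν, hν'⟩ := key ξ hξ hξt
    obtain ⟨μ, hμ, hμ'⟩ := key ζ hζ hζt
    have hμ0 : μ ≠ 0 := by
      rintro rfl
      apply hζp
      rw [← hp', ← hμ p', inner_zero_left]
    have hμn : ‖μ‖ ≠ 0 := norm_ne_zero_iff.2 hμ0
    have hνμ : ν = (‖ν‖ / ‖μ‖) • μ := by
      have h4 : R • (‖μ‖ • ν) = R • (‖ν‖ • μ) := by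
        have h5 : ‖μ‖ • (‖ν‖ • (t' - c')) = ‖ν‖ • (‖μ‖ • (t' - c')) := by
          rw [smul_smul, smul_smul, mul_comm]
        rw [hν', hμ', smul_neg, smul_neg, neg_inj] at h5
        rw [smul_comm R, h5, smul_comm R]
      have h5 : ‖μ‖ • ν = ‖ν‖ • μ := smul_right_injective E hR0.ne' h4
      rw [div_eq_inv_mul, mul_smul, ← h5, inv_smul_smul₀ hμn]
    refine ⟨‖ν‖ / ‖μ‖, ?_⟩
    intro v hv
    obtain ⟨x, rfl⟩ := hjsur v hv
    rw [← hν x, ← hμ x]
    conv_lhs => rw [hνμ]
    rw [inner_smul_left]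
    rfl

end Pool.Agent.H60.KV.SMO
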